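import Pool.Agent.Lib.P5e96.Far5
import Pool.Agent.Lib.P5e96.LowRank

/-!
# Trace-zero matrices away from the nonzero scalar matrices

For every infinite field `K`, every degree `m`, and all `n ≥ 14 (⌊m / 4⌋ + 1)`, every nonzero
multilinear polynomial of degree `m` attains on `M_n(K)` every trace-zero matrix `B` with
`rank (B - c) ≥ 4 ⌊m / 4⌋ + 3` for all nonzero scalars `c`.
-/

namespace Pool.Agent.Results.MP_5e96a2_al.AwayFromScalars

open Matrix

theorem lift_eq {K : Type*} [Field K] {m n : ℕ} (c : Equiv.Perm (Fin m) → K)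
    (A : Fin m → Matrix (Fin n) (Fin n) K) :
    FreeAlgebra.lift K A (∑ σ : Equiv.Perm (Fin m),
      c σ • (List.ofFn (fun i : Fin m => FreeAlgebra.ι K (σ i))).prod) =
      Pool.Agent.P5e96.mval c A := by
  rw [Pool.Agent.P5e96.mval, map_sum]
  refine Finset.sum_congr rfl fun σ _ => ?_
  rw [map_smul, map_list_prod, List.map_ofFn]
  congr 2
  simp [Function.comp_def]

/-- Let `K` be an infinite field, `f` a nonzero multilinear polynomial of degree `m ≥ 1` over `K`
and `n ≥ 14 (⌊m / 4⌋ + 1)`. Every trace-zero `n × n` matrix `B` over `K` such that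
`rank (B - c) ≥ 4 ⌊m / 4⌋ + 3` for all nonzero `c` in `K` is a value of `f`. -/
theorem result (K : Type*) [Field K] [Infinite K] (n m : ℕ) (hm : 1 ≤ m)
    (hn : 14 * (m / 4 + 1) ≤ n)
    (f : FreeAlgebra K (Fin m))
    (hf : ∃ c : Equiv.Perm (Fin m) → K,
      f = ∑ σ : Equiv.Perm (Fin m),
        c σ • (List.ofFn (fun i : Fin m => FreeAlgebra.ι K (σ i))).prod)
    (hf0 : f ≠ 0) (B : Matrix (Fin n) (Fin n) K) (hB : B.trace = 0)
    (hr : ∀ c : K, c ≠ 0 → 4 * (m / 4) + 3 ≤ (B - c • (1 : Matrix (Fin n) (Fin n) K)).rank) :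
    ∃ A : Fin m → Matrix (Fin n) (Fin n) K, FreeAlgebra.lift K A f = B := by
  obtain ⟨c, rfl⟩ := hf
  have hc : c ≠ 0 := by
    rintro rfl
    exact hf0 (by simp)
  obtain ⟨A, hA⟩ : ∃ A : Fin m → Matrix (Fin n) (Fin n) K, Pool.Agent.P5e96.mval c A = B := by
    by_cases h0 : 4 * (m / 4) + 3 ≤ B.rank
    · refine Pool.Agent.P5e96.value_of_far hm c hc (by omega) B hB fun d => ?_
      by_cases hd : d = 0
      · rw [hd, zero_smul, sub_zero]
        omega
      · have := hr d hd
        omega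
    · exact Pool.Agent.P5e96.value_low_rank hm c hc B hB (by omega)
  exact ⟨A, by rw [lift_eq, hA]⟩

end Pool.Agent.Results.MP_5e96a2_al.AwayFromScalars
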