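import Mathlib
import Pool.Agent.Lib.P5e96.Nil

/-!
# Nilpotent matrices are values of every multilinear polynomial of degree at most n

`K` is any infinite field and `f` is any nonzero multilinear polynomial of degree `m`. If
`n ≥ 2 ⌈m / 2⌉` (that is, `m ≤ n`, with `m < n` when `n` is odd), then every nilpotent `n × n`
matrix over `K` is a value of `f` on `M_n(K)`.
-/

namespace Pool.Agent.Results.MP_5e96a2_al.NilpotentValues

theorem lift_eq {K : Type*} [Field K] {m n : ℕ} (c : Equiv.Perm (Fin m) → K)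
    (A : Fin m → Matrix (Fin n) (Fin n) K) :
    FreeAlgebra.lift K A (∑ σ : Equiv.Perm (Fin m),
      c σ • (List.ofFn (fun i : Fin m => FreeAlgebra.ι K (σ i))).prod) =
      Pool.Agent.P5e96.mval c A := by
  rw [Pool.Agent.P5e96.mval, map_sum]
  refine Finset.sum_congr rfl fun σ _ => ?_
  rw [map_smul, map_list_prod, List.map_ofFn]
  congr 2
  simp [Function.comp_def]

/-- Let `K` be an infinite field, `f` a nonzero multilinear polynomial of degree `m ≥ 1` over `K`
and `n ≥ 2 ⌈m / 2⌉`. Every nilpotent `n × n` matrix over `K` is a value of `f`. -/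
theorem result (K : Type*) [Field K] [Infinite K] (n m : ℕ) (hm : 1 ≤ m)
    (hn : 2 * ((m + 1) / 2) ≤ n)
    (f : FreeAlgebra K (Fin m))
    (hf : ∃ c : Equiv.Perm (Fin m) → K,
      f = ∑ σ : Equiv.Perm (Fin m),
        c σ • (List.ofFn (fun i : Fin m => FreeAlgebra.ι K (σ i))).prod)
    (hf0 : f ≠ 0) (B : Matrix (Fin n) (Fin n) K) (hB : IsNilpotent B) :
    ∃ A : Fin m → Matrix (Fin n) (Fin n) K, FreeAlgebra.lift K A f = B := by
  obtain ⟨c, rfl⟩ := hf
  have hc : c ≠ 0 := by
    rintro rfl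
    exact hf0 (by simp)
  obtain ⟨A, hA⟩ := Pool.Agent.P5e96.value_of_nilpotent hm c hc hn B hB
  exact ⟨A, by rw [lift_eq, hA]⟩

end Pool.Agent.Results.MP_5e96a2_al.NilpotentValues
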