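import Mathlib
import Pool.Agent.Lib.P5e96.Value

/-!
# Nonderogatory matrices of trace zero are values of every multilinear polynomial

`K` is any infinite field and `f` is any nonzero multilinear polynomial of degree `m`. If
`n ≥ 3 ⌈m / 2⌉`, then every trace-zero `n × n` matrix over `K` with a cyclic vector is a value
of `f` on `M_n(K)`. In particular this holds for every trace-zero matrix with `n` different
eigenvalues in the algebraic closure, so the image of `f` contains a dense open set of trace-zero
matrices, and every matrix of trace zero is a sum of two values of `f`.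
-/

namespace Pool.Agent.Results.MP_5e96a2_al.NonderogatoryValues

open Matrix

theorem lift_eq {K : Type*} [Field K] {m n : ℕ} (c : Equiv.Perm (Fin m) → K)
    (A : Fin m → Matrix (Fin n) (Fin n) K) :
    FreeAlgebra.lift K A (∑ σ : Equiv.Perm (Fin m),
      c σ • (List.ofFn (fun i : Fin m => FreeAlgebra.ι K (σ i))).prod) =
      Pool.Agent.P5e96.mval c A := by
  rw [Pool.Agent.P5e96.mval, map_sum]
  refine Finset.sum_congr rfl fun σ _ => ?_
  rw [map_smul, map_list_prod, List.map_ofFn]
  congr 2
  simp [Function.comp_def]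

/-- Let `K` be an infinite field, `f` a nonzero multilinear polynomial of degree `m ≥ 1` over `K`
and `n ≥ 3 ⌈m / 2⌉`. Every trace-zero `n × n` matrix `B` over `K` having a vector `v` with
`v, B v, ..., B ^ (n - 1) v` linearly independent is a value of `f`. -/
theorem result (K : Type*) [Field K] [Infinite K] (n m : ℕ) (hm : 1 ≤ m)
    (hn : 3 * ((m + 1) / 2) ≤ n)
    (f : FreeAlgebra K (Fin m))
    (hf : ∃ c : Equiv.Perm (Fin m) → K,
      f = ∑ σ : Equiv.Perm (Fin m),
        c σ • (List.ofFn (fun i : Fin m => FreeAlgebra.ι K (σ i))).prod)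
    (hf0 : f ≠ 0) (B : Matrix (Fin n) (Fin n) K) (hB : B.trace = 0)
    (v : Fin n → K) (hv : LinearIndependent K fun i : Fin n => (B ^ (i : ℕ)) *ᵥ v) :
    ∃ A : Fin m → Matrix (Fin n) (Fin n) K, FreeAlgebra.lift K A f = B := by
  obtain ⟨c, rfl⟩ := hf
  have hc : c ≠ 0 := by
    rintro rfl
    exact hf0 (by simp)
  obtain ⟨A, hA⟩ := Pool.Agent.P5e96.value_of_cyclic hm c hc hn B hB v hv
  exact ⟨A, by rw [lift_eq, hA]⟩

end Pool.Agent.Results.MP_5e96a2_al.NonderogatoryValues
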