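import Mathlib
import Pool.Agent.Lib.P5e96.NilG
import Pool.Agent.Lib.P5e96.Symm

/-!
# Nilpotent matrices and matrices similar to their negative: the full range `m ≤ 2n - 1`

`K` is any infinite field and `f` is any nonzero multilinear polynomial of degree `m`. If
`n ≥ 2 (⌊m / 4⌋ + 1)` (that is, `m ≤ 2n - 1` if `n` is even and `m ≤ 2n - 3` if `n` is odd), then
every nilpotent `n × n` matrix over `K` and, if the characteristic of `K` is not `2`, every
`n × n` matrix `B` over `K` that is similar to `-B`, is a value of `f` on `M_n(K)`.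
-/

namespace Pool.Agent.Results.MP_5e96a2_al.SymmetricFullRange

theorem lift_eq {K : Type*} [Field K] {m n : ℕ} (c : Equiv.Perm (Fin m) → K)
    (A : Fin m → Matrix (Fin n) (Fin n) K) :
    FreeAlgebra.lift K A (∑ σ : Equiv.Perm (Fin m),
      c σ • (List.ofFn (fun i : Fin m => FreeAlgebra.ι K (σ i))).prod) =
      Pool.Agent.P5e96.mval c A := by
  rw [Pool.Agent.P5e96.mval, map_sum]
  refine Finset.sum_congr rfl fun σ _ => ?_
  rw [map_smul, map_list_prod, List.map_ofFn]
  congr 2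
  simp [Function.comp_def]

/-- Let `K` be an infinite field, `f` a nonzero multilinear polynomial of degree `m ≥ 1` over `K`
and `n ≥ 2 (⌊m / 4⌋ + 1)`. Let `B` be an `n × n` matrix over `K` that is nilpotent or, if `2 ≠ 0`
in `K`, similar to `-B`. Then `B` is a value of `f`. -/
theorem result (K : Type*) [Field K] [Infinite K] (n m : ℕ) (hm : 1 ≤ m)
    (hn : 2 * (m / 4 + 1) ≤ n)
    (f : FreeAlgebra K (Fin m))
    (hf : ∃ c : Equiv.Perm (Fin m) → K,
      f = ∑ σ : Equiv.Perm (Fin m),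
        c σ • (List.ofFn (fun i : Fin m => FreeAlgebra.ι K (σ i))).prod)
    (hf0 : f ≠ 0) (B : Matrix (Fin n) (Fin n) K)
    (hB : IsNilpotent B ∨
      ((2 : K) ≠ 0 ∧ ∃ g : Matrix (Fin n) (Fin n) K, IsUnit g ∧ g * B = -B * g)) :
    ∃ A : Fin m → Matrix (Fin n) (Fin n) K, FreeAlgebra.lift K A f = B := by
  obtain ⟨c, rfl⟩ := hf
  have hc : c ≠ 0 := by
    rintro rfl
    exact hf0 (by simp)
  have key : ∃ A : Fin m → Matrix (Fin n) (Fin n) K, Pool.Agent.P5e96.mval c A = B := by
    rcases hB with hB | ⟨h2, g, hg, hgB⟩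
    · exact Pool.Agent.P5e96.value_of_nilpotent' hm c hc hn B hB
    · refine Pool.Agent.P5e96.value_of_bal hm c hc hn B ?_
      obtain ⟨g', hg'⟩ := hg
      have h1 : g * (↑g'⁻¹ : Matrix (Fin n) (Fin n) K) = 1 := by rw [← hg']; exact g'.mul_inv
      have h1' : (↑g'⁻¹ : Matrix (Fin n) (Fin n) K) * g = 1 := by rw [← hg']; exact g'.inv_mul
      refine Pool.Agent.P5e96.bal_of_conj_neg h2 (Matrix.toLin' B)
        (Matrix.toLin'OfInv h1' h1) (fun w => ?_)
      change Matrix.mulVec g (Matrix.mulVec B w) = -Matrix.mulVec B (Matrix.mulVec g w)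
      rw [Matrix.mulVec_mulVec, hgB, Matrix.mulVec_mulVec, Matrix.neg_mul, Matrix.neg_mulVec]
  obtain ⟨A, hA⟩ := key
  exact ⟨A, by rw [lift_eq, hA]⟩

end Pool.Agent.Results.MP_5e96a2_al.SymmetricFullRange
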